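import Pool.Agent.H83.LaxStab.Stab

/-!
# A lax stability condition with a slice failing the Jordan-Hölder property

The example: the bounded derived category of finite-dimensional representations of the quiver
`1 → 2 ← 3` over a field, the slicing with `P(1) =` representations supported at the outer
vertices and `P(1/2) =` representations with injective maps (vector spaces with two subspaces),
and the central charge `Z(a, b, c) = b i`.
-/

open CategoryTheory CategoryTheory.Limits CategoryTheory.Pretriangulated
open Pool.Agent.H83.LaxStab

namespace Pool.Agent.Results.MP_f85f12_al.JordanHolderFails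

/-- There are a triangulated category `C`, a free abelian group `Λ` of finite rank with a norm on
`ℝ ⊗ Λ`, a homomorphism `v : K(C) → Λ`, a lax stability condition `σ = (P, Z)` and a phase `φ`
such that every nonzero object of the slice `P(φ)` has positive mass and the slice `P(φ)` fails
the Jordan-Hölder property. -/
theorem result :
    ∃ (C : Type 1) (_ : Category.{1} C) (_ : Preadditive C) (_ : HasZeroObject C)
      (_ : HasShift C ℤ) (_ : ∀ n : ℤ, (shiftFunctor C n).Additive) (_ : Pretriangulated C)
      (_ : IsTriangulated C)
      (Λ : Type) (_ : AddCommGroup Λ) (_ : Module.Free ℤ Λ) (_ : Module.Finite ℤ Λ)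
      (N : LatticeNorm Λ) (v : K0 C →+ Λ) (σ : LaxStabilityCondition v N) (φ : ℝ),
      (∀ c : C, σ.P φ c → ¬ IsZero c → 0 < σ.mass c) ∧
        ¬ JordanHolderProperty (σ.P φ).FullSubcategory := by
  let _ : HasDerivedCategory.{1} (Rep3 (FGModuleCat.{0} ℚ)) := HasDerivedCategory.standard _
  exact ⟨DerivedCategory.Bounded (Rep3 (FGModuleCat.{0} ℚ)), inferInstance, inferInstance,
    inferInstance, inferInstance, inferInstance, inferInstance, inferInstance,
    Fin 3 → ℤ, inferInstance, inferInstance, inferInstance, supNorm, vRep, lax, 1 / 2,
    mass_pos, not_jordanHolder_slice⟩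

end Pool.Agent.Results.MP_f85f12_al.JordanHolderFails
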